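import Mathlib
import Pool.Agent.H969Q.Final

set_option autoImplicit false

open Pool.Agent.H969Q

/-- Let `X` be the smooth quartic threefold of equation `f`, `Ku(X)` the right orthogonal of the
structure sheaf in the bounded derived category, `s`, `q`, `μ` real numbers with `q > s ^ 2 / 2`.
No Bridgeland stability condition on `Ku(X)` (with respect to its numerical Grothendieck group)
whose central charge is the restriction of `Z^μ_{s,q}` is Serre-invariant. In particular none of
the stability conditions `σ(s,q,μ)` is Serre-invariant. -/
theorem Pool.Agent.Results.MP_d03fa8_ag.QuarticNotSerreInvariant.result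
    (f : MvPolynomial (Fin 5) ℂ) (hf : SmoothQuartic f) (𝒮 : SerreFunctor f)
    (s q μ : ℝ) (hq : s ^ 2 / 2 < q) (σ : StabCond f)
    (hZ : ∀ E, Ku f E → σ.Z E = Zmu s q μ E) : ¬ SerreInvariant σ 𝒮 :=
  main f hf 𝒮 s q μ hq σ hZ
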